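import Pool.Agent.H33.PFC1

set_option autoImplicit false

open Set Filter Topology Cardinal TopologicalSpace Pool.Agent.H33

namespace Pool.Agent.Results.MP_3b51b4_gt.SmallWeight

/-- `C_p(X)`: the continuous real functions as a subspace of the product `ℝ^X` -/
abbrev Cp (X : Type) [TopologicalSpace X] : Type := {f : X → ℝ // Continuous f}

theorem result (hMA : ∀ κ < (𝔠 : Cardinal.{0}), SCP1.MAk κ) (hCH : ℵ_ 1 < (𝔠 : Cardinal.{0}))
    (X : Type) [TopologicalSpace X] [CompactSpace X] [T2Space X] [PerfectlyNormalSpace X]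
    (hw : ∃ 𝓑 : Set (Set X), IsTopologicalBasis 𝓑 ∧ #𝓑 < 𝔠)
    (hp : ∀ 𝒰 : Set (Set (Cp X)), (∀ U ∈ 𝒰, IsOpen U ∧ U.Nonempty) →
      (∀ f, {U ∈ 𝒰 | f ∈ U}.Finite) → 𝒰.Countable) : MetrizableSpace X := by
  classical
  by_contra hm
  obtain ⟨𝓑, hb, hc⟩ := hw
  have := PFC1.fc fun x : X => isClosed_singleton.isGδ
  have : HereditarilyLindelofSpace X := HereditarilyLindelofSpace.of_forall_isOpen fun U hU => by
    obtain ⟨V, h1, h2⟩ := hU.isClosed_compl.isGδ.eq_iInter_nat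
    rw [← compl_compl U, h2, compl_iInter]
    exact isLindelof_iUnion fun n => (h1 n).isClosed_compl.isCompact.isLindelof
  obtain ⟨z, z1, z2⟩ := PFC1.pairs hm
  let ι := {t : 𝓑 × 𝓑 // Disjoint (closure t.1.1) (closure t.2.1)}
  let K : ι → Set (X × X) := fun t => closure t.1.1.1 ×ˢ closure t.1.2.1
  have hκ : ℵ₀ ≤ max (ℵ_ 1) #𝓑 := aleph0_lt_aleph_one.le.trans (le_max_left _ _)
  obtain ⟨B, b1, b2⟩ := PFC1.comb (hMA _ (max_lt hCH hc)) (le_max_left _ _) (ι := ι)
    ((mk_subtype_le _).trans (by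
      simpa using (mul_le_mul' (le_max_right (ℵ_ 1) #𝓑) (le_max_right _ _)).trans_eq
        (mul_eq_self hκ))) (fun t => z ⁻¹' K t)
    (fun t => z2 _ _ isClosed_closure isClosed_closure t.2) fun C q k h1 h2 =>
      PFC1.anti z2 C q (fun δ => ⋃ t ∈ k δ, K t) (fun δ => ⟨isClosed_biUnion_finset fun t _ =>
        isClosed_closure.prod isClosed_closure, fun w a e => by
          obtain ⟨t, -, c⟩ := mem_iUnion₂.1 a
          exact disjoint_left.1 t.2 c.1 (e ▸ c.2)⟩) h1 fun δ a δ' c d => by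
        obtain ⟨a, a1, i, a2, a3⟩ := h2 δ a δ' c d
        exact ⟨a, a1, mem_biUnion a2 a3⟩
  let O : DiaDefs.W → Set (Cp X) := fun α => {f | f.1 (z α).1 < f.1 (z α).2 - 1}
  have pf : ∀ f, {α ∈ B | f ∈ O α}.Finite := fun f => by
    have : ∀ w : X × X, ∃ t : ι, f.1 w.1 ≤ f.1 w.2 - 1 → K t ∈ 𝓝 w := fun w => by
      have k : ∀ w : X × X, w.1 ≠ w.2 → ∃ t : ι, K t ∈ 𝓝 w := fun w c => by
        obtain ⟨U₁, -, V₁, a1, U₂, -, V₂, a2, a3, a4, -, -, a5, a6, a7⟩ := disjoint_nested_nhds c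
        obtain ⟨u, u1, u2, u3⟩ := hb.mem_nhds_iff.1 a1
        obtain ⟨v, v1, v2, v3⟩ := hb.mem_nhds_iff.1 a2
        exact ⟨⟨(⟨u, u1⟩, ⟨v, v1⟩), a7.mono ((closure_minimal u3 a3).trans a5)
          ((closure_minimal v3 a4).trans a6)⟩, prod_mem_nhds (mem_of_superset (hb.mem_nhds u1 u2)
            subset_closure) (mem_of_superset (hb.mem_nhds v1 v2) subset_closure)⟩
      by_cases e : w.1 = w.2
      · have := DiaDefs.unc
        obtain ⟨t, -⟩ := k _ (z1 (Classical.arbitrary _))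
        exact ⟨t, fun a => by rw [e] at a; linarith⟩
      · exact (k w e).imp fun _ a _ => a
    choose t ht using this
    obtain ⟨s, -, s2⟩ := (isClosed_le (f.2.comp continuous_fst)
      ((f.2.comp continuous_snd).sub continuous_const)).isCompact.elim_nhds_subcover
        (fun w => K (t w)) ht
    refine (s.finite_toSet.biUnion fun w _ => b2 (t w)).subset fun α a => ?_
    obtain ⟨w, w1, w2⟩ := mem_iUnion₂.1 (s2 (a := z α) (le_of_lt (show _ < _ from a.2) :
      f.1 (z α).1 ≤ f.1 (z α).2 - 1))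
    exact mem_biUnion w1 ⟨a.1, w2⟩
  have ne : ∀ α, (O α).Nonempty := fun α => by
    obtain ⟨g, g0, g1, -⟩ := exists_continuous_zero_one_of_isClosed isClosed_singleton
      isClosed_singleton (disjoint_singleton.2 (z1 α))
    refine ⟨⟨fun x => 2 * g x, continuous_const.mul g.continuous⟩, ?_⟩
    show 2 * g _ < 2 * g _ - 1
    rw [g0 rfl, g1 rfl]
    norm_num
  choose f hf using ne
  refine b1 (((hp (O '' B) (forall_mem_image.2 fun α _ => ⟨isOpen_lt
    ((continuous_apply _).comp continuous_subtype_val) (((continuous_apply _).comp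
      continuous_subtype_val).sub continuous_const), f α, hf α⟩) fun g =>
        ((pf g).image O).subset ?_).biUnion (t := fun U _ => {α ∈ B | O α = U})
          fun U hU => ?_).mono fun α a => mem_biUnion (mem_image_of_mem O a) ?_)
  · rintro _ ⟨⟨α, a, rfl⟩, c⟩
    exact ⟨α, ⟨a, c⟩, rfl⟩
  · obtain ⟨β, -, rfl⟩ := hU
    refine (pf (f β)).countable.mono fun α a => ?_
    exact ⟨a.1, a.2.ge (hf β)⟩
  · exact ⟨a, rfl⟩

end Pool.Agent.Results.MP_3b51b4_gt.SmallWeight
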